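import Pool.Agent.N453.ZS.Chain

/-!
Zero in the spectrum for finite aspherical complexes `M` whose fundamental group `G` has a
torsion-free nilpotent subgroup of Hirsch length `n - 2` which fixes a non-zero element of
`H^n(G; ℤ[G])`, where `n` is the least degree (above two) in which this cohomology does not vanish.

`X : FinRes G` is the cellular chain complex of the universal cover of a finite aspherical complex
`M` with fundamental group `G` (`Pool.Agent.H919R4.ZS.Defs`), `X.homology (toRed G) i` is
`H_i(M; C*_r(G))` and `X.cohomology k` (the kernel of `X.cobd k` modulo `X.coboundaries k`) is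
`H^k(G; ℤ[G])`, which is the cohomology with compact supports of the universal cover. The group
`G` acts on it by right multiplication.
-/

set_option autoImplicit false

namespace Pool.Agent.Results.MP_9f173d_gt.FixedClasses

open Pool.Agent.H919R4.ZS (FinRes toRed)

variable {G : Type} [Group G]

/-- The subgroup generated by `c 0, …, c (i - 1)`. -/
def gen (c : ℕ → G) (i : ℕ) : Subgroup G := Subgroup.closure {g | ∃ j < i, g = c j}

/-- `c 0, …, c (h - 1)` generate a torsion-free nilpotent group of Hirsch length `h`: the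
subgroups `C_i` generated by `c 0, …, c (i - 1)` form a central series with infinite cyclic
factors. For instance, they commute and generate `ℤ^h`. -/
def NilpotentChain (c : ℕ → G) (h : ℕ) : Prop :=
  (∀ i < h, ∀ m : ℤ, c i ^ m ∈ gen c i → m = 0) ∧
  ∀ i j, i < j → j < h → c i * c j * (c i)⁻¹ * (c j)⁻¹ ∈ gen c i

/-- The class in `H^n(G; ℤ[G])` of the cocycle `y` is fixed by right multiplication by `c`. -/
def Fixed (X : FinRes G) {n : ℕ} (y : Fin (X.n n) → MonoidAlgebra ℤ G) (c : G) : Prop :=
  (fun j => y j * MonoidAlgebra.single c 1) - y ∈ X.coboundaries n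

/-- Let `X` be a finite free resolution of `ℤ` over `ℤ[G]` (the cellular chain complex of the
universal cover of `M`) and let `n` be such that `H^k(G; ℤ[G]) = 0` for `3 ≤ k < n`. Suppose that
some non-zero element of `H^n(G; ℤ[G])` is fixed by the elements `c 0, …, c (n - 3)` of `G`, which
generate a torsion-free nilpotent group of Hirsch length `n - 2` (for instance `ℤ^(n-2)`; for
`n = 3` the condition is that it is fixed by one element of infinite order). Then the homology of
`X` with coefficients in `C*_r(G)` does not vanish in some degree `i ≤ 2`. -/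
theorem result (X : FinRes G) (n : ℕ) (h0 : ∀ k, 3 ≤ k → k < n → Subsingleton (X.cohomology k))
    (c : ℕ → G) (hc : NilpotentChain c (n - 2)) (y : Fin (X.n n) → MonoidAlgebra ℤ G)
    (hy0 : X.cobd n y = 0) (hy1 : y ∉ X.coboundaries n) (hy2 : ∀ j < n - 2, Fixed X y (c j)) :
    ∃ i ≤ 2, Nontrivial (X.homology (toRed G) i) := by
  by_cases hnt : ∃ k ≤ 2, Nontrivial (X.cohomology k)
  · exact Pool.Agent.H919R4.ZS.main X (Or.inr hnt)
  push Not at hnt
  have hl : ∀ k < n, Subsingleton (X.cohomology k) := by
    intro k hk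
    rcases Nat.lt_or_ge k 3 with h | h
    · exact not_nontrivial_iff_subsingleton.1 (by simpa using hnt k (by omega))
    · exact h0 k h hk
  have hseg : ∀ i, Pool.Agent.N453.ZS.seg (⊥ : Subgroup G) c i = gen c i := fun i => bot_sup_eq _
  rcases Nat.lt_or_ge n 2 with hn | hn
  · refine Pool.Agent.H919R4.ZS.main X (Or.inr ⟨n, by omega, ?_⟩)
    refine ⟨⟨((⟨y, hy0⟩ : (X.cobd n).ker) : X.cohomology n), 0, fun h3 => hy1 ?_⟩⟩
    rw [QuotientAddGroup.eq_zero_iff] at h3
    exact h3
  obtain ⟨h, rfl⟩ := Nat.exists_eq_add_of_le hn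
  rw [Nat.add_sub_cancel_left] at hc hy2
  have H : Pool.Agent.N453.ZS.Ser (⊥ : Subgroup G) c h := by
    refine ⟨fun j _ => ?_, fun i hi m hm => hc.1 i hi m (by rwa [hseg] at hm), fun i j hij hj => ?_⟩
    · exact (Subgroup.mem_normalizer_iff).2 fun g => by
        rw [Subgroup.mem_bot, Subgroup.mem_bot]
        constructor
        · rintro rfl; simp
        · intro h3
          rw [mul_inv_eq_one] at h3
          exact mul_eq_left.1 h3
    · rw [hseg]
      exact hc.2 i j hij hj
  obtain ⟨h1, h2⟩ := Pool.Agent.N453.ZS.fx_bot X hl c y hy0 hy1 hy2 H.norm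
  obtain ⟨D, hD, hx⟩ := Pool.Agent.N453.ZS.fx_chain X h ⊥ c 2 H Pool.Agent.N453.ZS.amenable_bot h1 h2
  exact Pool.Agent.N453.ZS.main_class X hD le_rfl hx

end Pool.Agent.Results.MP_9f173d_gt.FixedClasses
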